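import Mathlib
import Pool.Agent.U830.MA.Ex
import Pool.Agent.U624.MA.FIELD
import Pool.Agent.U208.MA.ALG
import Pool.Agent.U981.MA.GL

/-!
# MP_df3b73_co, Q2: the largest induced group of a proper Mathon 8-arc is the Singer cycle `C_7`,
and it occurs exactly when `7` divides `h`

Paper proof, geometry, group theory and existence by helper830; package FIELD (field theory) by
helper624, package ALG (algebra of the linear case) by helper208, package GL (orders in `GL_3(2)`)
by helper981.  The definitions of conics, Mathon families and collineations are those of the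
starting file `InducedGroupProper.lean`; `inducedGroup` and `DennistonType` are defined in
`Pool/Agent/U830/MA/Geo.lean`.
-/

set_option autoImplicit false

namespace Pool.Agent.Results.MP_df3b73_co.SingerCycle

open Pool.Agent.Results.MP_df3b73_co.InducedGroupProper
open Pool.Agent.U830.MA

/-- Let `K` be a field with `2 ^ h` elements.  The induced group of every proper Mathon `8`-arc of
`PG(2, K)` is a cyclic group of automorphisms of the Fano plane, its order divides `h` and is at
most `7`; and there is a proper Mathon `8`-arc of `PG(2, K)` whose induced group has order `7` if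
and only if `7` divides `h`. -/
theorem result (h : ℕ) (K : Type) [Field K] [Fintype K] [Algebra (ZMod 2) K]
    (hK : Fintype.card K = 2 ^ h) :
    (∀ (𝒞 : Finset (Conic K)) (p : Collineation K), IsMathonFamily 𝒞 → ¬ DennistonType 𝒞 →
      IsCyclic (inducedGroup 𝒞 p) ∧ (∀ π ∈ inducedGroup 𝒞 p, IsFanoAut 𝒞 π) ∧
      Nat.card (inducedGroup 𝒞 p) ∣ h ∧ Nat.card (inducedGroup 𝒞 p) ≤ 7) ∧
    ((∃ (𝒞 : Finset (Conic K)) (p : Collineation K), IsMathonFamily 𝒞 ∧ ¬ DennistonType 𝒞 ∧
      Nat.card (inducedGroup 𝒞 p) = 7) ↔ 7 ∣ h) := by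
  have hALG := Pool.Agent.U208.MA.ALG.t_ALG
  have hGL := Pool.Agent.U981.MA.GL.t_GL
  refine ⟨fun 𝒞 p h𝒞 hD => ⟨cyclic_ind hALG h𝒞 hD p, ?_, card_dvd hALG h𝒞 hD p hK,
    card_le hALG hGL h𝒞 hD p⟩, ?_, ?_⟩
  · rintro π ⟨g, hg⟩ F F' F'' hne hF''
    obtain ⟨k, σ, hk, hF⟩ := induced_form h𝒞 p g π hg
    have hne' : (π F).1 ≠ (π F').1 := fun h => hne (π.injective (Subtype.ext h))
    apply lam_inj h𝒞 (π F'').2 (h𝒞.closed _ (π F).2 _ (π F').2 hne').2
    show _ = (π F).1.lam + (π F').1.lam
    rw [hF, hF, hF, hF'']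
    show k * σ (F.1.lam + F'.1.lam) = _
    rw [map_add, mul_add]
  · rintro ⟨𝒞, p, h𝒞, hD, h7⟩
    rw [← h7]
    exact card_dvd hALG h𝒞 hD p hK
  · intro h7
    have h0 : h ≠ 0 := by
      rintro rfl
      have := Fintype.one_lt_card (α := K)
      rw [hK] at this
      simp at this
    obtain ⟨c, τ, R, hR, hmem, hc, htr, h1, hτ7⟩ :=
      Pool.Agent.U624.MA.FIELD.t_FIELD K h hK h7 h0
    have hM := fam_mathon hR hmem htr
    have hP := fam_proper hR hmem htr
    refine ⟨fam c R, cOne, hM, hP, ?_⟩
    obtain ⟨π, hπ, hord⟩ := exists_perm hR hmem htr τ hc h1 hτ7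
    have h2 : 7 ∣ Nat.card (inducedGroup (fam c R) cOne) := by
      have h3 : orderOf (⟨π, hπ⟩ : inducedGroup (fam c R) cOne) = 7 := by
        rw [← hord]
        exact Subgroup.orderOf_mk π hπ
      rw [← h3]
      exact orderOf_dvd_natCard _
    have h4 := card_le hALG hGL hM hP (cOne : Collineation K)
    have h5 : 0 < Nat.card (inducedGroup (fam c R) cOne) := Nat.card_pos
    obtain ⟨m, hm⟩ := h2
    have : m = 1 := by
      rcases m with _ | _ | m
      · omega
      · rfl
      · omega
    rw [hm, this]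

end Pool.Agent.Results.MP_df3b73_co.SingerCycle
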